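import Mathlib

set_option autoImplicit false

namespace Pool.Agent.H180Z.Dyn

open MvPolynomial Filter Topology

/-- The function field `k(x, y)` of the projective plane over `k`. Dominant rational self-maps of
the plane correspond to the `k`-algebra endomorphisms of this field. -/
abbrev FF (k : Type) [Field k] : Type := FractionRing (MvPolynomial (Fin 2) k)

/-- A polynomial in `x, y` as a rational function. -/
noncomputable abbrev toFF {k : Type} [Field k] : MvPolynomial (Fin 2) k →+* FF k :=
  algebraMap (MvPolynomial (Fin 2) k) (FF k)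

/-- The algebraic degree: the least `D` such that the map is `[P₀ : P₁ : P₂]` in the affine
coordinates `[1 : x : y]`, with polynomials of total degree at most `D`. -/
noncomputable def algDeg {k : Type} [Field k] (φ : FF k →ₐ[k] FF k) : ℕ :=
  sInf {D : ℕ | ∃ P₀ P₁ P₂ : MvPolynomial (Fin 2) k, P₀ ≠ 0 ∧
    P₀.totalDegree ≤ D ∧ P₁.totalDegree ≤ D ∧ P₂.totalDegree ≤ D ∧
    φ (toFF (X 0)) = toFF P₁ / toFF P₀ ∧ φ (toFF (X 1)) = toFF P₂ / toFF P₀}

/-- The topological degree: the degree of the function field over its pull-back. -/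
noncomputable def topDeg {k : Type} [Field k] (φ : FF k →ₐ[k] FF k) : ℕ :=
  Module.finrank φ.fieldRange (FF k)

/-- `l` is the exponential growth rate of the sequence `a`: the `n`-th root of `a n` tends to
`l`. -/
def IsGrowthRate (a : ℕ → ℕ) (l : ℝ) : Prop :=
  Tendsto (fun n : ℕ => (a n : ℝ) ^ (1 / (n : ℝ))) atTop (𝓝 l)

end Pool.Agent.H180Z.Dyn
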