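import Pool.Agent.H180Z.Dyn.Defs

set_option autoImplicit false

namespace Pool.Agent.H180Z.Dyn

open MvPolynomial Filter Topology

variable {k : Type} [Field k]

noncomputable def th (k : Type) [Field k] (T m : ℕ) :
    MvPolynomial (Fin 2) k →ₐ[k] MvPolynomial (Fin 2) k :=
  aeval ![X 0 ^ T * X 1, X 0 ^ m]

noncomputable def sg (T m : ℕ) (u : Fin 2 →₀ ℕ) : Fin 2 →₀ ℕ :=
  Finsupp.single 0 (T * u 0 + m * u 1) + Finsupp.single 1 (u 0)

lemma th_X0 (T m : ℕ) : th k T m (X 0) = X 0 ^ T * X 1 := by simp [th]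
lemma th_X1 (T m : ℕ) : th k T m (X 1) = X 0 ^ m := by simp [th]

lemma th_monomial (T m : ℕ) (u : Fin 2 →₀ ℕ) (c : k) (i : ℕ) :
    th k T m (monomial u c) * X 0 ^ i = monomial (sg T m u + Finsupp.single 0 i) c := by
  have e : ∀ (v : Fin 2 →₀ ℕ), (monomial v c : MvPolynomial (Fin 2) k) =
      C c * X 0 ^ v 0 * X 1 ^ v 1 := by
    intro v
    rw [monomial_eq, Finsupp.prod_fintype _ _ (by simp), Fin.prod_univ_two, mul_assoc]
  rw [e, e]
  simp only [map_mul, map_pow, th_X0, th_X1, sg, Finsupp.add_apply, Finsupp.single_eq_same]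
  simp only [algHom_C, algebraMap_eq, ne_eq, zero_ne_one, not_false_eq_true,
    Finsupp.single_eq_of_ne, one_ne_zero]
  ring

lemma coeff_th (T m : ℕ) (p : MvPolynomial (Fin 2) k) (s : Fin 2 →₀ ℕ) {i r : ℕ} (hi : i < m)
    (hr : r < m) : coeff (sg T m s + Finsupp.single 0 r) (th k T m p * X 0 ^ i) =
      if i = r then coeff s p else 0 := by
  classical
  induction p using MvPolynomial.induction_on' with
  | monomial u c =>
    rw [th_monomial, coeff_monomial, coeff_monomial]
    have key : sg T m u + Finsupp.single 0 i = sg T m s + Finsupp.single 0 r ↔ i = r ∧ u = s := by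
      constructor
      · intro h
        have h0 := DFunLike.congr_fun h 0
        have h1 := DFunLike.congr_fun h 1
        simp [sg] at h0 h1
        rw [h1] at h0
        have h2 : m * u 1 + i = m * s 1 + r := by omega
        have h3 : i = r := by
          have := congrArg (· % m) h2
          simpa [Nat.mul_add_mod, Nat.mod_eq_of_lt hi, Nat.mod_eq_of_lt hr] using this
        subst h3
        have h4 : u 1 = s 1 := Nat.eq_of_mul_eq_mul_left (by omega : 0 < m) (by omega)
        refine ⟨rfl, ?_⟩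
        ext j
        fin_cases j
        · exact h1
        · exact h4
      · rintro ⟨rfl, rfl⟩; rfl
    by_cases h1 : i = r <;> by_cases h2 : u = s <;> simp [key, h1, h2]
    all_goals simp_all
  | add p q hp hq =>
    rw [map_add, add_mul, coeff_add, hp, hq, coeff_add]
    split_ifs <;> simp

lemma th_inj (T : ℕ) {m : ℕ} (hm : 0 < m) : Function.Injective (th k T m) := by
  rw [injective_iff_map_eq_zero]
  intro p hp
  ext s
  have := coeff_th T m p s hm hm
  rw [hp] at this
  simpa using this.symm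

lemma toFF_inj : Function.Injective (toFF (k := k)) :=
  IsFractionRing.injective (MvPolynomial (Fin 2) k) (FF k)

noncomputable def ph (k : Type) [Field k] (T : ℕ) {m : ℕ} (hm : 0 < m) : FF k →ₐ[k] FF k :=
  IsFractionRing.liftAlgHom
    (g := (IsScalarTower.toAlgHom k (MvPolynomial (Fin 2) k) (FF k)).comp (th k T m))
    (toFF_inj.comp (th_inj T hm))

lemma ph_toFF (T : ℕ) {m : ℕ} (hm : 0 < m) (p : MvPolynomial (Fin 2) k) :
    ph k T hm (toFF p) = toFF (th k T m p) := by
  unfold ph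
  rw [IsFractionRing.liftAlgHom_apply]
  exact IsFractionRing.lift_algebraMap _ p

lemma topDeg_mul (φ ψ : FF k →ₐ[k] FF k) : topDeg (φ * ψ) = topDeg φ * topDeg ψ := by
  unfold topDeg
  have e : (φ * ψ).fieldRange = ψ.fieldRange.map φ := (AlgHom.map_fieldRange ψ φ).symm
  have h1 : ψ.fieldRange.map φ ≤ φ.fieldRange := by
    rw [AlgHom.fieldRange_eq_map φ]
    exact IntermediateField.map_mono φ le_top
  have h2 := IntermediateField.relfinrank_mul_finrank_top h1
  rw [e, ← h2, mul_comm]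
  congr 1
  conv_lhs => rw [AlgHom.fieldRange_eq_map φ]
  rw [IntermediateField.relfinrank_map_map, IntermediateField.relfinrank_top_right]

lemma topDeg_one : topDeg (1 : FF k →ₐ[k] FF k) = 1 := by
  unfold topDeg
  have : (1 : FF k →ₐ[k] FF k).fieldRange = ⊤ := by
    rw [eq_top_iff]; intro x _; exact ⟨x, rfl⟩
  rw [this]
  exact IntermediateField.finrank_top

lemma topDeg_pow (φ : FF k →ₐ[k] FF k) (n : ℕ) : topDeg (φ ^ n) = topDeg φ ^ n := by
  induction n with
  | zero => simpa using topDeg_one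
  | succ n ih => rw [pow_succ, topDeg_mul, ih, pow_succ]

lemma topDeg_ph (T : ℕ) {m : ℕ} (hm : 0 < m) : topDeg (ph k T hm) = m := by
  unfold topDeg
  set L := (ph k T hm).fieldRange with hL
  set x : FF k := toFF (X 0) with hx
  have hx0 : x ≠ 0 := fun h => X_ne_zero (0 : Fin 2) (toFF_inj (h.trans (map_zero _).symm))
  have hxm : x ^ m ∈ L := ⟨toFF (X 1), by
    change ph k T hm (toFF (X 1)) = _
    rw [ph_toFF, th_X1, map_pow]⟩
  have hxy : x ^ T * toFF (X 1) ∈ L := ⟨toFF (X 0), by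
    change ph k T hm (toFF (X 0)) = _
    rw [ph_toFF, th_X0, map_mul, map_pow]⟩
  have hmon : (Polynomial.X ^ m - Polynomial.C (⟨x ^ m, hxm⟩ : L)).Monic :=
    Polynomial.monic_X_pow_sub_C _ hm.ne'
  have hroot : Polynomial.aeval x (Polynomial.X ^ m - Polynomial.C (⟨x ^ m, hxm⟩ : L)) = 0 := by
    simp
  have hint : IsIntegral L x := ⟨_, hmon, hroot⟩
  have htop : IntermediateField.adjoin L {x} = ⊤ := by
    rw [eq_top_iff]
    intro z _
    have hxa : x ∈ IntermediateField.adjoin L {x} := IntermediateField.mem_adjoin_simple_self L x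
    have hLa : ∀ w, w ∈ L → w ∈ IntermediateField.adjoin L {x} := fun w hw =>
      (IntermediateField.adjoin L {x}).algebraMap_mem ⟨w, hw⟩
    have hpoly : ∀ p : MvPolynomial (Fin 2) k, toFF p ∈ IntermediateField.adjoin L {x} := by
      intro p
      induction p using MvPolynomial.induction_on with
      | C a => exact hLa _ (L.algebraMap_mem a)
      | add p q hp hq => rw [map_add]; exact add_mem hp hq
      | mul_X p i hp =>
        rw [map_mul]
        refine mul_mem hp ?_
        fin_cases i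
        · exact hxa
        · have e : toFF (X 1) = (x ^ T * toFF (X 1)) / x ^ T := by field_simp
          change toFF (X 1) ∈ _
          rw [e]
          exact div_mem (hLa _ hxy) (pow_mem hxa _)
    obtain ⟨p, q, -, rfl⟩ := IsFractionRing.div_surjective (A := MvPolynomial (Fin 2) k) z
    exact div_mem (hpoly p) (hpoly q)
  have hfin : Module.finrank L (FF k) = (minpoly L x).natDegree := by
    rw [← IntermediateField.adjoin.finrank hint, htop, IntermediateField.finrank_top']
  rw [hfin]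
  apply le_antisymm
  · have := Polynomial.natDegree_le_natDegree (minpoly.min L x hmon hroot)
    rwa [Polynomial.natDegree_X_pow_sub_C] at this
  · by_contra hlt
    push Not at hlt
    set p := minpoly L x with hp
    have h0 : Polynomial.aeval x p = 0 := minpoly.aeval L x
    rw [Polynomial.aeval_eq_sum_range' hlt] at h0
    have hc : ∀ i : ℕ, ∃ a : FF k, ph k T hm a = (p.coeff i : FF k) := fun i => (p.coeff i).2
    choose a ha using hc
    obtain ⟨b, hb⟩ := IsLocalization.exist_integer_multiples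
      (nonZeroDivisors (MvPolynomial (Fin 2) k)) (Finset.range m) a
    choose! q hq using hb
    have h1 : toFF (∑ i ∈ Finset.range m, th k T m (q i) * X 0 ^ i) = 0 := by
      rw [map_sum]
      have : ∀ i ∈ Finset.range m, toFF (th k T m (q i) * X 0 ^ i) =
          ph k T hm (toFF b) * (p.coeff i • x ^ i) := by
        intro i hi
        rw [map_mul, map_pow, ← ph_toFF]
        have := hq i hi
        change toFF (q i) = _ at this
        rw [this, Algebra.smul_def, map_mul, ha, Algebra.smul_def, mul_assoc]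
        rfl
      rw [Finset.sum_congr rfl this, ← Finset.mul_sum, h0, mul_zero]
    have h2 : ∑ i ∈ Finset.range m, th k T m (q i) * X 0 ^ i = 0 :=
      toFF_inj (h1.trans (map_zero _).symm)
    have h3 : q p.natDegree = 0 := by
      ext s
      have := congrArg (coeff (sg T m s + Finsupp.single 0 p.natDegree)) h2
      rw [coeff_sum, Finset.sum_congr rfl
        (fun i hi => coeff_th T m (q i) s (Finset.mem_range.1 hi) hlt)] at this
      simpa [Finset.sum_ite_eq', hlt] using this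
    have h4 := hq _ (Finset.mem_range.2 hlt)
    have h5 : a p.natDegree = 1 := by
      apply (ph k T hm).injective
      have h6 : p.coeff p.natDegree = 1 := (minpoly.monic hint).coeff_natDegree
      change ph k T hm _ = ph k T hm _
      rw [ha, h6, map_one]; rfl
    rw [h3, h5, map_zero, Algebra.smul_def, mul_one] at h4
    exact nonZeroDivisors.coe_ne_zero b (toFF_inj (h4.symm.trans (map_zero _).symm))

lemma algDeg_poly (φ : FF k →ₐ[k] FF k) (p q : MvPolynomial (Fin 2) k) (hp : p ≠ 0) (hq : q ≠ 0)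
    (h0 : φ (toFF (X 0)) = toFF p) (h1 : φ (toFF (X 1)) = toFF q) :
    algDeg φ = max p.totalDegree q.totalDegree := by
  have hmem : max p.totalDegree q.totalDegree ∈ {D : ℕ | ∃ P₀ P₁ P₂ : MvPolynomial (Fin 2) k,
      P₀ ≠ 0 ∧ P₀.totalDegree ≤ D ∧ P₁.totalDegree ≤ D ∧ P₂.totalDegree ≤ D ∧
      φ (toFF (X 0)) = toFF P₁ / toFF P₀ ∧ φ (toFF (X 1)) = toFF P₂ / toFF P₀} :=
    ⟨1, p, q, one_ne_zero, by simp, le_max_left _ _, le_max_right _ _, by simp [h0], by simp [h1]⟩
  apply le_antisymm (Nat.sInf_le hmem)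
  obtain ⟨P₀, P₁, P₂, h2, -, h4, h5, h6, h7⟩ := Nat.sInf_mem ⟨_, hmem⟩
  have h8 : toFF P₀ ≠ 0 := fun h => h2 (toFF_inj (h.trans (map_zero _).symm))
  rw [h0, eq_div_iff h8, ← map_mul] at h6
  rw [h1, eq_div_iff h8, ← map_mul] at h7
  rw [← toFF_inj h6, totalDegree_mul_of_isDomain hp h2] at h4
  rw [← toFF_inj h7, totalDegree_mul_of_isDomain hq h2] at h5
  omega

lemma totalDegree_pow' {p : MvPolynomial (Fin 2) k} (hp : p ≠ 0) (n : ℕ) :
    (p ^ n).totalDegree = n * p.totalDegree := by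
  induction n with
  | zero => simp
  | succ n ih => rw [pow_succ, totalDegree_mul_of_isDomain (pow_ne_zero _ hp) hp, ih]; ring

lemma ph_pow_toFF (T : ℕ) {m : ℕ} (hm : 0 < m) (n : ℕ) (p : MvPolynomial (Fin 2) k) :
    (ph k T hm ^ n) (toFF p) = toFF ((th k T m ^ n) p) := by
  induction n generalizing p with
  | zero => rfl
  | succ n ih => rw [pow_succ, pow_succ, AlgHom.mul_apply, AlgHom.mul_apply, ph_toFF, ih]

lemma th_pow_ne (T : ℕ) {m : ℕ} (hm : 0 < m) (n : ℕ) (i : Fin 2) : (th k T m ^ n) (X i) ≠ 0 := by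
  have : Function.Injective (th k T m ^ n) := by
    rw [AlgHom.coe_pow]; exact (th_inj T hm).iterate n
  exact fun h => X_ne_zero i (this (h.trans (map_zero _).symm))

lemma deg_bounds (T : ℕ) {m : ℕ} (hm : 0 < m) {ρ : ℝ} (hρ1 : 1 ≤ ρ) (hρ : ρ ^ 2 = T * ρ + m)
    (n : ℕ) :
    (ρ / (ρ + m) * ρ ^ n ≤ (((th k T m ^ n) (X 0)).totalDegree : ℝ) ∧
      (((th k T m ^ n) (X 0)).totalDegree : ℝ) ≤ ρ * ρ ^ n) ∧
    (m / (ρ + m) * ρ ^ n ≤ (((th k T m ^ n) (X 1)).totalDegree : ℝ) ∧
      (((th k T m ^ n) (X 1)).totalDegree : ℝ) ≤ m * ρ ^ n) := by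
  have hm1 : (1 : ℝ) ≤ m := by exact_mod_cast hm
  have hpos : 0 < ρ + m := by linarith
  induction n with
  | zero =>
    simp only [pow_zero, AlgHom.one_apply, totalDegree_X, Nat.cast_one, mul_one]
    refine ⟨⟨?_, hρ1⟩, ?_, hm1⟩ <;> rw [div_le_one hpos] <;> linarith
  | succ n ih =>
    obtain ⟨⟨h1, h2⟩, h3, h4⟩ := ih
    have hne := th_pow_ne (k := k) T hm n
    rw [pow_succ (th k T m), AlgHom.mul_apply, AlgHom.mul_apply, th_X0, th_X1, map_mul, map_pow,
      map_pow, totalDegree_mul_of_isDomain (pow_ne_zero _ (hne 0)) (hne 1),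
      totalDegree_pow' (hne 0), totalDegree_pow' (hne 0)]
    push_cast
    have hT : (0 : ℝ) ≤ T := by positivity
    have e1 : ρ / (ρ + m) * ρ ^ (n + 1) = T * (ρ / (ρ + m) * ρ ^ n) + m / (ρ + m) * ρ ^ n := by
      field_simp
      linear_combination ρ ^ n * hρ
    have e2 : ρ * ρ ^ (n + 1) = T * (ρ * ρ ^ n) + m * ρ ^ n := by
      linear_combination ρ ^ n * hρ
    have e3 : m / (ρ + m) * ρ ^ (n + 1) = m * (ρ / (ρ + m) * ρ ^ n) := by field_simp; ring
    have e4 : m * ρ ^ (n + 1) = m * (ρ * ρ ^ n) := by ring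
    rw [e1, e2, e3, e4]
    refine ⟨⟨?_, ?_⟩, ?_, ?_⟩ <;> gcongr

lemma growth_of_bounds (a : ℕ → ℕ) {ρ c C : ℝ} (hρ : 0 < ρ) (hc : 0 < c) (hC : 0 < C)
    (h : ∀ n, c * ρ ^ n ≤ a n ∧ a n ≤ C * ρ ^ n) : IsGrowthRate a ρ := by
  have key : ∀ c : ℝ, 0 < c →
      Tendsto (fun n : ℕ => (c * ρ ^ n) ^ (1 / (n : ℝ))) atTop (𝓝 ρ) := by
    intro c hc
    have h1 : Tendsto (fun n : ℕ => c ^ (1 / (n : ℝ)) * ρ) atTop (𝓝 (c ^ (0 : ℝ) * ρ)) :=
      (tendsto_const_nhds.rpow tendsto_one_div_atTop_nhds_zero_nat (Or.inl hc.ne')).mul_const ρ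
    rw [Real.rpow_zero, one_mul] at h1
    refine h1.congr' ?_
    filter_upwards [eventually_gt_atTop 0] with n hn
    rw [Real.mul_rpow hc.le (by positivity), one_div, Real.pow_rpow_inv_natCast hρ.le hn.ne']
  refine tendsto_of_tendsto_of_tendsto_of_le_of_le (key c hc) (key C hC) (fun n => ?_) (fun n => ?_)
  · exact Real.rpow_le_rpow (by positivity) (h n).1 (by positivity)
  · exact Real.rpow_le_rpow (by positivity) (h n).2 (by positivity)

theorem dense_ratio (k : Type) [Field k] (a b : ℝ) (ha : 0 < a) (hab : a < b) :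
    ∃ (φ : FF k →ₐ[k] FF k) (l₁ l₂ : ℝ), IsGrowthRate (fun n => algDeg (φ ^ n)) l₁ ∧
      IsGrowthRate (fun n => topDeg (φ ^ n)) l₂ ∧ a < l₂ / l₁ ∧ l₂ / l₁ < b := by
  obtain ⟨T, hT⟩ := exists_nat_gt ((a * b + 1) / (b - a) + 1)
  have hba : 0 < b - a := by linarith
  have hq : 0 < (a * b + 1) / (b - a) := by
    have : 0 < b := by linarith
    positivity
  have hT1 : (1 : ℝ) < T := by linarith
  have hT2 : a * b + 1 < T * (b - a) := by
    rw [← div_lt_iff₀ hba]; linarith
  set m := ⌊b * T⌋₊ with hm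
  have hb : 0 < b := by linarith
  have hm1 : (m : ℝ) ≤ b * T := Nat.floor_le (by positivity)
  have hm2 : b * T < m + 1 := Nat.lt_floor_add_one _
  have hm3 : a * T + a * b < m := by nlinarith
  have hm0 : 0 < m := by
    have : (0 : ℝ) < m := lt_trans (by positivity) hm3
    exact_mod_cast this
  have hm0' : (0 : ℝ) < m := by exact_mod_cast hm0
  set ρ : ℝ := (T + Real.sqrt (T ^ 2 + 4 * m)) / 2 with hρ
  have hs := Real.sq_sqrt (show (0 : ℝ) ≤ T ^ 2 + 4 * m by positivity)
  have hs0 := Real.sqrt_nonneg ((T : ℝ) ^ 2 + 4 * m)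
  have hρ2 : ρ ^ 2 = T * ρ + m := by rw [hρ]; nlinarith
  have hρT : T < ρ := by
    have : (T : ℝ) < Real.sqrt (T ^ 2 + 4 * m) := Real.lt_sqrt_of_sq_lt (by linarith)
    rw [hρ]; linarith
  have hρ0 : 0 < ρ := by linarith
  have hρb : ρ < T + b := by
    by_contra hcon
    push Not at hcon
    nlinarith
  refine ⟨ph k T hm0, ρ, m, ?_, ?_, ?_, ?_⟩
  · refine growth_of_bounds _ (c := ρ / (ρ + m)) (C := ρ + m) hρ0 (by positivity) (by positivity)
      (fun n => ?_)
    obtain ⟨⟨h1, h2⟩, -, h4⟩ := deg_bounds (k := k) T hm0 (by linarith) hρ2 n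
    rw [algDeg_poly _ _ _ (th_pow_ne T hm0 n 0) (th_pow_ne T hm0 n 1) (ph_pow_toFF T hm0 n _)
      (ph_pow_toFF T hm0 n _)]
    push_cast
    have h5 : 0 < ρ ^ n := by positivity
    refine ⟨h1.trans (le_max_left _ _), max_le ?_ ?_⟩ <;> nlinarith
  · refine growth_of_bounds _ (c := 1) (C := 1) hm0' one_pos one_pos (fun n => ?_)
    rw [topDeg_pow, topDeg_ph]
    simp
  · rw [lt_div_iff₀ hρ0]; nlinarith
  · rw [div_lt_iff₀ hρ0]; nlinarith

end Pool.Agent.H180Z.Dyn
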